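import Pool.Agent.helper17.EXC.Spec

/-!
# Project EXC, row CJG: conjugacy of the matrices of one class
-/

set_option autoImplicit false

open Finset

namespace Pool.Agent.EXC

section lin
variable {F U E' W : Type} [Field F] [AddCommGroup U] [Module F U] [AddCommGroup E'] [Module F E'] [AddCommGroup W] [Module F W]

/-- a linear map factors through another one with smaller kernel -/
theorem CJG_factor {K : Type} [AddCommGroup K] [Module F K] (N : U →ₗ[F] W) (f : U →ₗ[F] K)
    (h : LinearMap.ker N ≤ LinearMap.ker f) : ∃ c : W →ₗ[F] K, ∀ u, c (N u) = f u := by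
  obtain ⟨c, hc⟩ := LinearMap.exists_extend (((LinearMap.ker N).liftQ f h).comp N.quotKerEquivRange.symm.toLinearMap)
  refine ⟨c, fun u => ?_⟩
  have h1 := LinearMap.congr_fun hc ⟨N u, LinearMap.mem_range_self N u⟩
  simp only [LinearMap.comp_apply, Submodule.subtype_apply, LinearEquiv.coe_coe] at h1
  rw [h1]
  have h2 : N.quotKerEquivRange.symm ⟨N u, LinearMap.mem_range_self N u⟩ = (LinearMap.ker N).mkQ u := by
    rw [LinearEquiv.symm_apply_eq]
    rfl
  rw [h2]
  simp

/-- an isomorphism of two subspaces extends -/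
theorem CJG_ext [FiniteDimensional F U] (p q : U →ₗ[F] E') (hp : Function.Injective p) (hq : Function.Injective q) :
    ∃ g : E' ≃ₗ[F] E', ∀ u, g (p u) = q u := by
  have : FiniteDimensional F (LinearMap.range p) := by infer_instance
  obtain ⟨g, hg⟩ := Submodule.exists_linearEquiv_restrict_eq
    ((LinearEquiv.ofInjective p hp).symm.trans (LinearEquiv.ofInjective q hq))
  refine ⟨g, fun u => ?_⟩
  have h1 := hg ⟨p u, LinearMap.mem_range_self p u⟩
  rw [← h1]
  have h2 : (LinearEquiv.ofInjective p hp).symm ⟨p u, LinearMap.mem_range_self p u⟩ = u := by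
    rw [LinearEquiv.symm_apply_eq]
    rfl
  simp [h2]

theorem CJG_lin [FiniteDimensional F U] [FiniteDimensional F E'] [FiniteDimensional F W] (V V' : U →ₗ[F] E') (Φ Φ' : E' →ₗ[F] W)
    (hV : Function.Injective V) (hV' : Function.Injective V') (hΦ : Function.Surjective Φ) (hΦ' : Function.Surjective Φ')
    (h : ∀ u, Φ (V u) = Φ' (V' u)) : ∃ g : E' ≃ₗ[F] E', (∀ u, g (V u) = V' u) ∧ ∀ x, Φ' (g x) = Φ x := by
  obtain ⟨s, hs⟩ := Φ.exists_rightInverse_of_surjective (LinearMap.range_eq_top.2 hΦ)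
  obtain ⟨s', hs'⟩ := Φ'.exists_rightInverse_of_surjective (LinearMap.range_eq_top.2 hΦ')
  have hs1 : ∀ w, Φ (s w) = w := fun w => LinearMap.congr_fun hs w
  have hs1' : ∀ w, Φ' (s' w) = w := fun w => LinearMap.congr_fun hs' w
  have hdim : Module.finrank F (LinearMap.ker Φ) = Module.finrank F (LinearMap.ker Φ') := by
    have e1 := Φ.finrank_range_add_finrank_ker
    have e2 := Φ'.finrank_range_add_finrank_ker
    rw [LinearMap.range_eq_top.2 hΦ, finrank_top] at e1
    rw [LinearMap.range_eq_top.2 hΦ', finrank_top] at e2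
    omega
  let τ : LinearMap.ker Φ ≃ₗ[F] LinearMap.ker Φ' := LinearEquiv.ofFinrankEq _ _ hdim
  -- the two embeddings of the kernel of `N`
  let N : U →ₗ[F] W := Φ.comp V
  let a : LinearMap.ker N →ₗ[F] LinearMap.ker Φ := (V.comp (LinearMap.ker N).subtype).codRestrict (LinearMap.ker Φ)
    (fun u => by
      have := u.2
      rwa [LinearMap.mem_ker] at this ⊢)
  let a' : LinearMap.ker N →ₗ[F] LinearMap.ker Φ' := (V'.comp (LinearMap.ker N).subtype).codRestrict (LinearMap.ker Φ')
    (fun u => by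
      have := u.2
      rw [LinearMap.mem_ker] at this ⊢
      exact (h u.1).symm.trans this)
  have ha : Function.Injective a := by
    intro x y hxy
    have := congrArg Subtype.val hxy
    exact Subtype.ext (hV this)
  have ha' : Function.Injective a' := by
    intro x y hxy
    have := congrArg Subtype.val hxy
    exact Subtype.ext (hV' this)
  obtain ⟨g0, hg0⟩ := CJG_ext (τ.toLinearMap.comp a) a' (τ.injective.comp ha) ha'
  let gK : LinearMap.ker Φ ≃ₗ[F] LinearMap.ker Φ' := τ.trans g0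
  have hgK : ∀ u, gK (a u) = a' u := fun u => hg0 u
  let kE : E' →ₗ[F] LinearMap.ker Φ := (LinearMap.id - s.comp Φ).codRestrict (LinearMap.ker Φ)
    (fun x => by
      rw [LinearMap.mem_ker]
      simp [hs1])
  let kE' : E' →ₗ[F] LinearMap.ker Φ' := (LinearMap.id - s'.comp Φ').codRestrict (LinearMap.ker Φ')
    (fun x => by
      rw [LinearMap.mem_ker]
      simp [hs1'])
  have hkE : ∀ x, (kE x : E') = x - s (Φ x) := fun x => rfl
  have hkE' : ∀ x, (kE' x : E') = x - s' (Φ' x) := fun x => rfl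
  obtain ⟨c, hc⟩ := CJG_factor N (kE'.comp V' - gK.toLinearMap.comp (kE.comp V)) (by
    intro u hu
    have hu1 : Φ (V u) = 0 := hu
    have hu2 : Φ' (V' u) = 0 := (h u).symm.trans hu1
    rw [LinearMap.mem_ker]
    have e1 : kE (V u) = a ⟨u, hu⟩ := by
      apply Subtype.ext
      rw [hkE, hu1, map_zero, sub_zero]
      rfl
    have e2 : kE' (V' u) = a' ⟨u, hu⟩ := by
      apply Subtype.ext
      rw [hkE', hu2, map_zero, sub_zero]
      rfl
    simp only [LinearMap.sub_apply, LinearMap.comp_apply, LinearEquiv.coe_coe]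
    rw [e1, e2, hgK, sub_self])
  let g : E' →ₗ[F] E' := (LinearMap.ker Φ').subtype.comp (gK.toLinearMap.comp kE) + s'.comp Φ + (LinearMap.ker Φ').subtype.comp (c.comp Φ)
  have hg : ∀ x, g x = (gK (kE x) : E') + s' (Φ x) + (c (Φ x) : E') := fun x => rfl
  have hΦg : ∀ x, Φ' (g x) = Φ x := by
    intro x
    rw [hg, map_add, map_add, hs1', LinearMap.mem_ker.1 (gK (kE x)).2, LinearMap.mem_ker.1 (c (Φ x)).2, zero_add, add_zero]
  have hgV : ∀ u, g (V u) = V' u := by
    intro u
    rw [hg]
    have e1 := congrArg (Subtype.val) (hc u)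
    have e2 : N u = Φ (V u) := rfl
    rw [e2] at e1
    rw [e1]
    simp only [LinearMap.sub_apply, LinearMap.comp_apply, LinearEquiv.coe_coe, Submodule.coe_sub]
    rw [hkE', h u]
    abel
  have hinj : Function.Injective g := by
    rw [injective_iff_map_eq_zero]
    intro x hx
    have e1 : Φ x = 0 := by rw [← hΦg, hx, map_zero]
    have e2 := hg x
    rw [hx, e1, map_zero, map_zero] at e2
    simp only [ZeroMemClass.coe_zero, add_zero] at e2
    have e3 : gK (kE x) = 0 := Subtype.ext e2.symm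
    have e4 : kE x = 0 := by
      rw [← map_zero gK] at e3
      exact gK.injective e3
    have e5 := congrArg Subtype.val e4
    rw [hkE, e1, map_zero, sub_zero] at e5
    exact e5
  exact ⟨LinearEquiv.ofInjectiveEndo g hinj, fun u => hgV u, fun x => hΦg x⟩

/-- a vector in the kernel of `Φ` and a functional vanishing on the image of `V` -/
theorem CJG_uf [FiniteDimensional F E'] (V : U →ₗ[F] E') (Φ : E' →ₗ[F] W)
    (h : ¬ LinearMap.ker Φ ≤ LinearMap.range V) : ∃ (u : E') (f : Module.Dual F E'), Φ u = 0 ∧ (∀ x, f (V x) = 0) ∧ f u = 1 := by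
  obtain ⟨u, hu, hu'⟩ := SetLike.not_le_iff_exists.1 h
  obtain ⟨f, hf, hf'⟩ := Submodule.exists_dual_map_eq_bot_of_notMem hu' inferInstance
  refine ⟨(f u)⁻¹ • u, f, ?_, ?_, ?_⟩
  · rw [map_smul, LinearMap.mem_ker.1 hu, smul_zero]
  · intro x
    have : f (V x) ∈ Submodule.map f (LinearMap.range V) := ⟨V x, LinearMap.mem_range_self V x, rfl⟩
    rw [hf'] at this
    simpa using this
  · rw [map_smul, smul_eq_mul, inv_mul_cancel₀ hf]

end lin

theorem CJG : CJG_stmt := by
  intro F _ N y y' ⟨V, Φ, ⟨Vi, hVi⟩, ⟨Φi, hΦi⟩, hN, hy⟩ ⟨V', Φ', ⟨Vi', hVi'⟩, ⟨Φi', hΦi'⟩, hN', hy'⟩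
  have inj : ∀ (A : Matrix (Fin 6) (Fin 2) F) (B : Matrix (Fin 2) (Fin 6) F), B * A = 1 → Function.Injective (Matrix.toLin' A) := by
    intro A B hBA x z hxz
    have h1 : Matrix.toLin' (B * A) x = Matrix.toLin' (B * A) z := by
      rw [Matrix.toLin'_mul_apply, Matrix.toLin'_mul_apply, hxz]
    rwa [hBA, Matrix.toLin'_one, LinearMap.id_apply, LinearMap.id_apply] at h1
  have sur : ∀ (A : Matrix (Fin 2) (Fin 6) F) (B : Matrix (Fin 6) (Fin 2) F), A * B = 1 → Function.Surjective (Matrix.toLin' A) := by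
    intro A B hAB x
    refine ⟨Matrix.toLin' B x, ?_⟩
    rw [← Matrix.toLin'_mul_apply, hAB, Matrix.toLin'_one, LinearMap.id_apply]
  obtain ⟨g, hgV, hgΦ⟩ := CJG_lin (Matrix.toLin' V) (Matrix.toLin' V') (Matrix.toLin' Φ) (Matrix.toLin' Φ') (inj V Vi hVi)
    (inj V' Vi' hVi') (sur Φ Φi hΦi) (sur Φ' Φi' hΦi') (by
      intro u
      rw [← Matrix.toLin'_mul_apply, ← Matrix.toLin'_mul_apply, hN, hN'])
  obtain ⟨u, f, hu, hf, hfu⟩ := CJG_uf (Matrix.toLin' V) (Matrix.toLin' Φ) (by
    intro hle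
    have h1 := Submodule.finrank_mono hle
    have h2 := (Matrix.toLin' Φ).finrank_range_add_finrank_ker
    have h3 := (Matrix.toLin' V).finrank_range_add_finrank_ker
    rw [LinearMap.range_eq_top.2 (sur Φ Φi hΦi), finrank_top] at h2
    rw [LinearMap.ker_eq_bot.2 (inj V Vi hVi), finrank_bot] at h3
    simp only [Module.finrank_fin_fun] at h2 h3
    omega)
  let G : Matrix (Fin 6) (Fin 6) F := LinearMap.toMatrix' (g : (Fin 6 → F) →ₗ[F] (Fin 6 → F))
  have hG : Matrix.toLin' G = (g : (Fin 6 → F) →ₗ[F] (Fin 6 → F)) := Matrix.toLin'_toMatrix' _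
  have hGV : G * V = V' := by
    apply Matrix.toLin'.injective
    apply LinearMap.ext
    intro x
    rw [Matrix.toLin'_mul_apply, hG]
    exact hgV x
  have hGΦ : Φ' * G = Φ := by
    apply Matrix.toLin'.injective
    apply LinearMap.ext
    intro x
    rw [Matrix.toLin'_mul_apply, hG]
    exact hgΦ x
  have hdG : G.det ≠ 0 := by
    intro h0
    have h1 : LinearMap.det (g : (Fin 6 → F) →ₗ[F] (Fin 6 → F)) ≠ 0 := (LinearEquiv.isUnit_det' g).ne_zero
    rw [← hG, LinearMap.det_toLin'] at h1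
    exact h1 h0
  -- the correction
  let fr : Fin 6 → F := fun i => f (Pi.single i 1)
  have hfr : ∀ x : Fin 6 → F, f x = ∑ i, fr i * x i := by
    intro x
    have h1 : x = ∑ i, x i • (Pi.single i (1 : F) : Fin 6 → F) := by
      ext j
      simp [Finset.sum_apply, Pi.single_apply]
    conv_lhs => rw [h1]
    rw [map_sum]
    exact Finset.sum_congr rfl fun i _ => by rw [map_smul, smul_eq_mul, mul_comm]
  let c : F := (G.det)⁻¹
  let M1 : Matrix (Fin 6) (Fin 6) F := Matrix.of fun i j => (c - 1) * u i * fr j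
  let h : Matrix (Fin 6) (Fin 6) F := 1 + M1
  have hM1V : M1 * V = 0 := by
    ext i j
    have e1 := hf (Pi.single j 1)
    rw [hfr] at e1
    have e2 : ∀ k, (Matrix.toLin' V) (Pi.single j 1) k = V k j := by
      intro k
      simp
    simp only [e2] at e1
    rw [Matrix.mul_apply]
    have e3 : ∀ k, M1 i k * V k j = (c - 1) * u i * (fr k * V k j) := fun k => by
      simp only [M1, Matrix.of_apply]; ring
    simp only [e3]
    rw [← Finset.mul_sum, e1, mul_zero]
    rfl
  have hΦM1 : Φ * M1 = 0 := by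
    ext i j
    have e1 := congrFun hu i
    rw [Matrix.toLin'_apply, Matrix.mulVec, dotProduct] at e1
    rw [Matrix.mul_apply]
    have e3 : ∀ k, Φ i k * M1 k j = (Φ i k * u k) * ((c - 1) * fr j) := fun k => by
      simp only [M1, Matrix.of_apply]; ring
    simp only [e3]
    rw [← Finset.sum_mul, e1]
    simp
  have hdh : h.det = c := by
    have e1 : M1 = Matrix.replicateCol Unit (fun i => (c - 1) * u i) * Matrix.replicateRow Unit fr := by
      ext i j
      simp [M1, Matrix.mul_apply]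
    have e2 : dotProduct fr (fun i => (c - 1) * u i) = c - 1 := by
      have e3 := hfu
      rw [hfr] at e3
      rw [dotProduct]
      have e4 : ∀ i, fr i * ((c - 1) * u i) = (c - 1) * (fr i * u i) := fun i => by ring
      simp only [e4]
      rw [← Finset.mul_sum, e3, mul_one]
    simp only [h]
    rw [e1, Matrix.det_one_add_replicateCol_mul_replicateRow, e2]
    ring
  have hdet : (G * h).det = 1 := by
    rw [Matrix.det_mul, hdh]
    exact mul_inv_cancel₀ hdG
  refine ⟨⟨G * h, hdet⟩, ?_⟩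
  set m : Matrix.SpecialLinearGroup (Fin 6) F := ⟨G * h, hdet⟩ with hm
  have hmm : (m : Matrix (Fin 6) (Fin 6) F) = G * h := rfl
  have key : y' * (m : Matrix (Fin 6) (Fin 6) F) = (m : Matrix (Fin 6) (Fin 6) F) * y := by
    rw [hmm, hy, hy']
    have e1 : h * V = V := by simp only [h]; rw [Matrix.add_mul, hM1V, Matrix.one_mul, add_zero]
    have e2 : Φ * h = Φ := by simp only [h]; rw [Matrix.mul_add, hΦM1, Matrix.mul_one, add_zero]
    calc (1 + V' * Φ') * (G * h) = G * h + V' * ((Φ' * G) * h) := by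
          rw [Matrix.add_mul, Matrix.one_mul]; simp only [Matrix.mul_assoc]
      _ = G * h + V' * Φ := by rw [hGΦ, e2]
      _ = G * h + (G * (h * V)) * Φ := by rw [e1, hGV]
      _ = G * h * (1 + V * Φ) := by
          rw [Matrix.mul_add (G * h) 1 (V * Φ), Matrix.mul_one, ← Matrix.mul_assoc (G * h) V Φ, Matrix.mul_assoc G h V]
  have hinv : (m : Matrix (Fin 6) (Fin 6) F) * ((m⁻¹ : Matrix.SpecialLinearGroup (Fin 6) F) : Matrix (Fin 6) (Fin 6) F) = 1 := by
    rw [← Matrix.SpecialLinearGroup.coe_mul, mul_inv_cancel, Matrix.SpecialLinearGroup.coe_one]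
  rw [← key, Matrix.mul_assoc, hinv, Matrix.mul_one]

end Pool.Agent.EXC
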