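import Pool.Agent.helper32.EXC.Spec11
import Pool.Agent.helper15.EXC.CJG

/-!
# Project EXC, row T11RK1: matrices of rank one and trace zero are extremal
-/

set_option autoImplicit false

open Finset

namespace Pool.Agent.EXC

theorem T11RK1_mat {F : Type} [Field F] (u φ : Fin 6 → F) (hu : u ≠ 0) (hφ : φ ≠ 0) (h : ∑ i, φ i * u i = 0) :
    ∃ (m : Matrix.SpecialLinearGroup (Fin 6) F) (c : F), c ≠ 0 ∧
      Matrix.vecMulVec u φ = (m : Matrix (Fin 6) (Fin 6) F) * Matrix.single 0 1 c *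
        ((m⁻¹ : Matrix.SpecialLinearGroup (Fin 6) F) : Matrix (Fin 6) (Fin 6) F) := by
  let V : F →ₗ[F] (Fin 6 → F) := LinearMap.toSpanSingleton F (Fin 6 → F) (Pi.single 0 1)
  let V' : F →ₗ[F] (Fin 6 → F) := LinearMap.toSpanSingleton F (Fin 6 → F) u
  let Φ : (Fin 6 → F) →ₗ[F] F := LinearMap.proj 1
  let Φ' : (Fin 6 → F) →ₗ[F] F :=
    { toFun := fun x => ∑ i, φ i * x i
      map_add' := fun x y => by simp [mul_add, Finset.sum_add_distrib]
      map_smul' := fun a x => by
        simp only [Pi.smul_apply, smul_eq_mul, RingHom.id_apply, Finset.mul_sum]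
        exact Finset.sum_congr rfl fun i _ => by ring }
  have hV : Function.Injective V := by
    intro x y hxy
    have := congrFun hxy 0
    simpa [V, LinearMap.toSpanSingleton_apply] using this
  have hV' : Function.Injective V' := by
    obtain ⟨j, hj⟩ := Function.ne_iff.1 hu
    intro x y hxy
    have h1 := congrFun hxy j
    have h2 : x * u j = y * u j := by simpa [V', LinearMap.toSpanSingleton_apply] using h1
    exact mul_right_cancel₀ hj h2
  have hΦ : Function.Surjective Φ := fun x => ⟨Pi.single 1 x, by simp [Φ]⟩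
  have hΦ' : Function.Surjective Φ' := by
    obtain ⟨j, hj⟩ := Function.ne_iff.1 hφ
    intro x
    refine ⟨Pi.single j ((φ j)⁻¹ * x), ?_⟩
    change ∑ i, φ i * (Pi.single j ((φ j)⁻¹ * x) : Fin 6 → F) i = x
    rw [Finset.sum_eq_single j]
    · rw [Pi.single_eq_same, mul_inv_cancel_left₀ hj]
    · intro b _ hb
      rw [Pi.single_eq_of_ne hb, mul_zero]
    · intro hb
      exact absurd (Finset.mem_univ _) hb
  obtain ⟨g, hgV, hgΦ⟩ := CJG_lin V V' Φ Φ' hV hV' hΦ hΦ' (by
    intro x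
    have e1 : Φ (V x) = 0 := by simp [Φ, V, LinearMap.toSpanSingleton_apply]
    have e2 : Φ' (V' x) = 0 := by
      change ∑ i, φ i * (x • u) i = 0
      have e3 : ∀ i, φ i * (x • u) i = x * (φ i * u i) := fun i => by rw [Pi.smul_apply, smul_eq_mul]; ring
      simp only [e3]
      rw [← Finset.mul_sum, h, mul_zero]
    rw [e1, e2])
  let G : Matrix (Fin 6) (Fin 6) F := LinearMap.toMatrix' (g : (Fin 6 → F) →ₗ[F] (Fin 6 → F))
  have hG : Matrix.toLin' G = (g : (Fin 6 → F) →ₗ[F] (Fin 6 → F)) := Matrix.toLin'_toMatrix' _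
  have hGe : ∀ j i, G i j = g (Pi.single j 1) i := by
    intro j i
    change LinearMap.toMatrix' (g : (Fin 6 → F) →ₗ[F] (Fin 6 → F)) i j = _
    rw [LinearMap.toMatrix'_apply]
    rfl
  have hG0 : ∀ i, G i 0 = u i := by
    intro i
    rw [hGe]
    have e1 := hgV 1
    simp only [V, V', LinearMap.toSpanSingleton_apply, one_smul] at e1
    rw [e1]
  have hGφ : ∀ j, ∑ k, φ k * G k j = if j = 1 then 1 else 0 := by
    intro j
    have e1 := hgΦ (Pi.single j 1)
    have e2 : ∑ k, φ k * g (Pi.single j 1) k = (Pi.single j (1 : F) : Fin 6 → F) 1 := e1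
    simp only [hGe]
    rw [e2, Pi.single_apply]
    simp [eq_comm]
  have hdG : G.det ≠ 0 := by
    intro h0
    have h1 : LinearMap.det (g : (Fin 6 → F) →ₗ[F] (Fin 6 → F)) ≠ 0 := (LinearEquiv.isUnit_det' g).ne_zero
    rw [← hG, LinearMap.det_toLin'] at h1
    exact h1 h0
  let d : F := (G.det)⁻¹
  let D : Matrix (Fin 6) (Fin 6) F := Matrix.diagonal fun i => if i = 1 then d else 1
  have hdet : (G * D).det = 1 := by
    rw [Matrix.det_mul, Matrix.det_diagonal, Finset.prod_ite_eq']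
    simp only [Finset.mem_univ, if_true]
    exact mul_inv_cancel₀ hdG
  refine ⟨⟨G * D, hdet⟩, d, inv_ne_zero hdG, ?_⟩
  set m : Matrix.SpecialLinearGroup (Fin 6) F := ⟨G * D, hdet⟩ with hm
  have hmm : (m : Matrix (Fin 6) (Fin 6) F) = G * D := rfl
  have key : Matrix.vecMulVec u φ * (m : Matrix (Fin 6) (Fin 6) F) = (m : Matrix (Fin 6) (Fin 6) F) * Matrix.single 0 1 d := by
    rw [hmm]
    ext i j
    have e1 : (Matrix.vecMulVec u φ * (G * D)) i j = u i * (if j = 1 then d else 0) := by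
      rw [← Matrix.mul_assoc, Matrix.mul_diagonal, Matrix.mul_apply]
      have e2 : ∀ k, Matrix.vecMulVec u φ i k * G k j = u i * (φ k * G k j) := fun k => by
        rw [Matrix.vecMulVec_apply, mul_assoc]
      simp only [e2]
      rw [← Finset.mul_sum, hGφ]
      by_cases hj : j = 1 <;> simp [hj]
    have e3 : (G * D * Matrix.single 0 1 d : Matrix (Fin 6) (Fin 6) F) i j = if j = 1 then u i * d else 0 := by
      by_cases hj : j = 1
      · subst hj
        rw [Matrix.mul_single_apply_same, Matrix.mul_diagonal, hG0]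
        simp
      · rw [Matrix.mul_single_apply_of_ne _ _ _ _ _ hj, if_neg hj]
    rw [e1, e3]
    by_cases hj : j = 1 <;> simp [hj]
  have hinv : (m : Matrix (Fin 6) (Fin 6) F) * ((m⁻¹ : Matrix.SpecialLinearGroup (Fin 6) F) : Matrix (Fin 6) (Fin 6) F) = 1 := by
    rw [← Matrix.SpecialLinearGroup.coe_mul, mul_inv_cancel, Matrix.SpecialLinearGroup.coe_one]
  rw [← key, Matrix.mul_assoc, hinv, Matrix.mul_one]

theorem T11RK1_io {n : ℕ} (C : Matrix (Fin n) (Fin n) ℤ) {F : Type} [Field F] (δ : Fin 5 → Fin n) (c : F) :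
    io C δ (Matrix.single 0 1 c) = ((et 0 1 : F) * c) • (E C (ro δ 0 1) : Lm C F) := by
  rw [io]
  have h1 : ∀ k : Fin 5, (∑ a : Fin 6, if (a : ℕ) ≤ k then (Matrix.single (0 : Fin 6) (1 : Fin 6) c) a a else 0) = 0 := by
    intro k
    refine Finset.sum_eq_zero fun a _ => ?_
    have h2 : (Matrix.single (0 : Fin 6) (1 : Fin 6) c) a a = 0 := by
      rw [Matrix.single_apply_of_ne]
      rintro ⟨h3, h4⟩
      rw [← h3] at h4
      exact absurd h4 (by decide)
    rw [h2, ite_self]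
  have h3 : ∑ k : Fin 5, (∑ a : Fin 6, if (a : ℕ) ≤ k then (Matrix.single (0 : Fin 6) (1 : Fin 6) c) a a else 0) • (ht C (sr (δ k)) : Lm C F) = 0 := by
    refine Finset.sum_eq_zero fun k _ => ?_
    rw [h1, zero_smul]
  rw [h3, zero_add, Finset.sum_eq_single 0, Finset.sum_eq_single 1]
  · rw [if_neg (by decide), Matrix.single_apply_same]
  · intro b _ hb
    rw [Matrix.single_apply_of_ne _ _ _ _ _ (fun h => hb h.2.symm), mul_zero, zero_smul, ite_self]
  · intro hb
    exact absurd (Finset.mem_univ _) hb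
  · intro a _ ha
    refine Finset.sum_eq_zero fun b _ => ?_
    rw [Matrix.single_apply_of_ne _ _ _ _ _ (fun h => ha h.1.symm), mul_zero, zero_smul, ite_self]
  · intro hb
    exact absurd (Finset.mem_univ _) hb

theorem T11RK1 (hNBR : NBR_stmt) (hRHO : RHO_stmt) (hLIF : LIF_stmt) (hEXF : EXF_stmt) : T11RK1_stmt := by
  intro n C _ F _ j0 θ δ hE u φ hu hφ h
  obtain ⟨m, c, hc, hm⟩ := T11RK1_mat u φ hu hφ h
  obtain ⟨g, hg, hR⟩ := hLIF n C F j0 θ δ hE m
  have hnb := (hNBR n C j0 θ δ hE).1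
  obtain ⟨-, hroot, hEx, -⟩ := hEXF n C F hnb
  have hro : ip C (ro δ 0 1) (ro δ 0 1) = 2 := by
    rw [(hRHO n C j0 θ δ hE).1]
    decide
  have h1 : Ex C (((et 0 1 : F) * c) • (E C (ro δ 0 1) : Lm C F)) := by
    refine (hEx _ (hroot _ hro)).2.2.2.1 _ ?_
    refine mul_ne_zero ?_ hc
    simp [et]
  have h2 := (hEx _ h1).2.2.1 g hg
  rw [← T11RK1_io, hR _ (by
    rw [Matrix.trace]
    refine Finset.sum_eq_zero fun a _ => ?_
    rw [Matrix.diag_apply, Matrix.single_apply_of_ne]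
    rintro ⟨h3, h4⟩
    rw [← h3] at h4
    exact absurd h4 (by decide)), ← hm] at h2
  exact h2

end Pool.Agent.EXC
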